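import Pool.Graph.R_pool_sql_team_39128cda.H.MP_5036fd_co.A

set_option autoImplicit false

/-!
Addressing functions with a region of hard points, and their conjunction with further variables.
-/

namespace Pool.Agent.KS6_79.JN

open Finset Pool.Agent.H.MP_5036fd_co

/-- the pointer: inside the region `R` the data bit with address `a`, outside one fixed data bit -/
def qq {b k : ℕ} (R : Finset (Fin b → Bool)) (u : Fin b ⊕ Fin k → Bool) :
    Option (Fin k → Bool) :=
  if (fun i => u (Sum.inl i)) ∈ R then some (fun j => u (Sum.inr j)) else none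

theorem cR {b k : ℕ} (R : Finset (Fin b → Bool)) :
    (univ.filter (fun u : Fin b ⊕ Fin k → Bool => (fun i => u (Sum.inl i)) ∈ R)).card
      = R.card * 2 ^ k := by
  have h : (univ.filter (fun u : Fin b ⊕ Fin k → Bool => (fun i => u (Sum.inl i)) ∈ R)).card
      = (R ×ˢ (univ : Finset (Fin k → Bool))).card := by
    refine card_nbij' (fun w => (fun j => w (Sum.inl j), fun a => w (Sum.inr a)))
      (fun p => Sum.elim p.1 p.2) ?_ ?_ ?_ ?_
    · intro w hw
      simpa using hw
    · intro p hp
      simpa using hp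
    · intro w _
      funext i
      cases i <;> rfl
    · intro p _
      rfl
  rw [h, card_product]
  simp

theorem q1 {b k : ℕ} (R : Finset (Fin b → Bool)) (j : Fin k) :
    pr (fun u => qq R u ≠ qq R (Function.update u (Sum.inr j) (!u (Sum.inr j))))
      ≤ R.card / 2 ^ b := by
  have h : (univ.filter (fun u : Fin b ⊕ Fin k → Bool => qq R u ≠
      qq R (Function.update u (Sum.inr j) (!u (Sum.inr j))))).card ≤ R.card * 2 ^ k := by
    rw [← cR R]
    refine card_le_card (monotone_filter_right _ fun u _ h => ?_)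
    by_contra hn
    apply h
    have hn' : (fun i => Function.update u (Sum.inr j) (!u (Sum.inr j)) (Sum.inl i)) ∉ R := by
      simpa using hn
    unfold qq
    rw [if_neg hn, if_neg hn']
  unfold pr
  rw [Fintype.card_sum, Fintype.card_fin, Fintype.card_fin, pow_add, div_le_div_iff₀ (by positivity)
    (by positivity)]
  have h' : ((univ.filter (fun u : Fin b ⊕ Fin k → Bool => qq R u ≠
      qq R (Function.update u (Sum.inr j) (!u (Sum.inr j))))).card : ℝ) ≤ R.card * 2 ^ k := by
    exact_mod_cast h
  calc _ ≤ ((R.card : ℝ) * 2 ^ k) * 2 ^ b := mul_le_mul_of_nonneg_right h' (by positivity)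
    _ = _ := by ring

theorem pr_le_one {ι : Type} [Fintype ι] [DecidableEq ι] (P : (ι → Bool) → Prop)
    [DecidablePred P] : pr P ≤ 1 := by
  unfold pr
  rw [div_le_one (by positivity)]
  have := card_le_univ (univ.filter P)
  rw [Fintype.card_fun, Fintype.card_bool] at this
  exact_mod_cast this

theorem q3 {b k : ℕ} (R : Finset (Fin b → Bool))
    (J : Finset ((Fin b ⊕ Fin k) ⊕ Option (Fin k → Bool))) :
    R.card * (2 ^ k - (J.card : ℝ)) / (2 ^ b * 2 ^ k) ≤ pr (fun u => Sum.inr (qq R u) ∉ J) := by
  have h1 : (univ.filter (fun a : Fin k → Bool => Sum.inr (some a) ∈ J)).card ≤ J.card := by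
    refine card_le_card_of_injOn (fun a => Sum.inr (some a)) (fun a ha => by simpa using ha) ?_
    intro a _ b _ h
    simpa using h
  have h2 : (R ×ˢ univ.filter (fun a : Fin k → Bool => ¬ Sum.inr (some a) ∈ J)).card ≤
      (univ.filter (fun u => Sum.inr (qq R u) ∉ J)).card := by
    refine card_le_card_of_injOn (fun p => Sum.elim p.1 p.2)
      (fun p hp => by
        simp only [coe_product, Set.mem_prod, mem_coe, coe_filter, mem_univ, true_and,
          Set.mem_ofPred_eq] at hp ⊢
        simpa [qq, hp.1] using hp.2) ?_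
    intro p _ q _ h
    refine Prod.ext ?_ ?_
    · funext j; exact congrFun h (Sum.inl j)
    · funext j; exact congrFun h (Sum.inr j)
  have h3 := card_filter_add_card_filter_not (s := (univ : Finset (Fin k → Bool)))
    (fun a => Sum.inr (some a) ∈ J)
  have h4 : (univ : Finset (Fin k → Bool)).card = 2 ^ k := by simp
  rw [card_product] at h2
  have h5 : (2 : ℝ) ^ k - J.card ≤
      ((univ.filter (fun a : Fin k → Bool => ¬ Sum.inr (some a) ∈ J)).card : ℝ) := by
    rw [h4] at h3
    have : (2 : ℝ) ^ k = ((univ.filter (fun a : Fin k → Bool => Sum.inr (some a) ∈ J)).card : ℝ)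
      + ((univ.filter (fun a : Fin k → Bool => ¬ Sum.inr (some a) ∈ J)).card : ℝ) := by
      exact_mod_cast h3.symm
    have h1' : ((univ.filter (fun a : Fin k → Bool => Sum.inr (some a) ∈ J)).card : ℝ)
      ≤ J.card := by exact_mod_cast h1
    linarith
  have h6 : ((R.card : ℝ) * (univ.filter (fun a : Fin k → Bool => ¬ Sum.inr (some a) ∈ J)).card) ≤
      (univ.filter (fun u => Sum.inr (qq R u) ∉ J)).card := by exact_mod_cast h2
  unfold pr
  rw [Fintype.card_sum, Fintype.card_fin, Fintype.card_fin, pow_add]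
  refine div_le_div_of_nonneg_right (le_trans ?_ h6) (by positivity)
  exact mul_le_mul_of_nonneg_left h5 (by positivity)

theorem infl_qq {b k : ℕ} (R : Finset (Fin b → Bool)) :
    infl (ff (qq (k := k) R)) ≤ 1 + (k * (R.card / 2 ^ b) + b) / 2 := by
  unfold infl
  rw [Fintype.sum_sum_type, infl_r, Fintype.sum_sum_type]
  simp only [infl_l]
  have a1 := sum_le_card_nsmul univ _ _ (fun i (_ : i ∈ univ) =>
    div_le_div_of_nonneg_right (pr_le_one (fun u => qq (k := k) R u ≠
      qq R (Function.update u (Sum.inl i) (!u (Sum.inl i))))) (zero_le_two (α := ℝ)))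
  have a2 := sum_le_card_nsmul univ _ _ (fun j (_ : j ∈ univ) =>
    div_le_div_of_nonneg_right (q1 (k := k) R j) (zero_le_two (α := ℝ)))
  simp only [card_univ, Fintype.card_fin, nsmul_eq_mul] at a1 a2
  have : ((k : ℝ) * (R.card / 2 ^ b) + b) / 2 = b * (1 / 2) + k * ((R.card / 2 ^ b) / 2) := by ring
  linarith

/-- A junta which is `ε / 2`-close needs many coordinates. -/
theorem err_qq {b k : ℕ} (R : Finset (Fin b → Bool))
    (g : ((Fin b ⊕ Fin k) ⊕ Option (Fin k → Bool) → Bool) → Bool)
    (J : Finset ((Fin b ⊕ Fin k) ⊕ Option (Fin k → Bool)))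
    (hg : ∀ x y, (∀ j ∈ J, x j = y j) → g x = g y) (ε : ℝ)
    (hε : pr (fun x => ff (qq R) x ≠ g x) ≤ ε * (1 / 2)) :
    (R.card / 2 ^ b - ε) * 2 ^ k ≤ (R.card / 2 ^ b) * J.card := by
  have e1 := err (qq R) g J hg
  have e2 := q3 R J
  have h3 : (0 : ℝ) < 2 ^ k := by positivity
  have h4 : (0 : ℝ) < 2 ^ b := by positivity
  have e3 : R.card * (2 ^ k - (J.card : ℝ)) / (2 ^ b * 2 ^ k) ≤ ε := by linarith
  rw [div_le_iff₀ (by positivity)] at e3
  have e4 : (R.card : ℝ) / 2 ^ b * (2 ^ k - (J.card : ℝ)) ≤ ε * 2 ^ k := by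
    rw [div_mul_eq_mul_div, div_le_iff₀ h4]
    linarith
  linarith

/-! ### Conjunction with `r` further variables -/

section conj

variable {ι : Type} [Fintype ι] [DecidableEq ι] (r : ℕ) (f : (ι → Bool) → Bool)

/-- the conjunction of `r` new variables with `f` -/
def cj (w : Fin r ⊕ ι → Bool) : Bool :=
  decide (∀ i, w (Sum.inl i) = true) && f (fun j => w (Sum.inr j))

/-- the point over `v` where the new variables are `1` -/
def ext1 (v : ι → Bool) : Fin r ⊕ ι → Bool := Sum.elim (fun _ => true) v

omit [Fintype ι] [DecidableEq ι] in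
theorem ext1_inj : Function.Injective (ext1 (ι := ι) r) := by
  intro u v h
  funext j
  exact congrFun h (Sum.inr j)

omit [Fintype ι] [DecidableEq ι] in
theorem ext1_of (w : Fin r ⊕ ι → Bool) (hw : ∀ i, w (Sum.inl i) = true) :
    ext1 r (fun j => w (Sum.inr j)) = w := by
  funext i
  cases i with
  | inl i => simp [ext1, hw]
  | inr j => rfl

omit [Fintype ι] [DecidableEq ι] in
theorem cj_ext1 (v : ι → Bool) : cj r f (ext1 r v) = f v := by
  simp [cj, ext1]

theorem cj_card : (univ.filter (fun w => cj r f w = true)).card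
    = (univ.filter (fun v => f v = true)).card := by
  symm
  refine card_nbij' (ext1 r) (fun w j => w (Sum.inr j)) ?_ ?_ ?_ ?_
  · intro v hv
    simp only [coe_filter, mem_univ, true_and, Set.mem_ofPred_eq] at hv ⊢
    rw [cj_ext1]; exact hv
  · intro w hw
    simp only [coe_filter, mem_univ, true_and, Set.mem_ofPred_eq] at hw ⊢
    simp only [cj, Bool.and_eq_true] at hw
    exact hw.2
  · intro v _; rfl
  · intro w hw
    simp only [coe_filter, mem_univ, true_and, Set.mem_ofPred_eq] at hw
    simp only [cj, Bool.and_eq_true, decide_eq_true_eq] at hw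
    exact ext1_of r w hw.1

theorem pr_cj : pr (fun w => cj r f w = true) = pr (fun v => f v = true) / 2 ^ r := by
  unfold pr
  rw [cj_card, Fintype.card_sum, Fintype.card_fin, pow_add]
  field_simp

theorem infl_inr (i : ι) : pr (fun w => cj r f w ≠
      cj r f (Function.update w (Sum.inr i) (!w (Sum.inr i))))
    ≤ pr (fun v => f v ≠ f (Function.update v i (!v i))) / 2 ^ r := by
  have h : (univ.filter (fun w => cj r f w ≠
      cj r f (Function.update w (Sum.inr i) (!w (Sum.inr i))))).card
      ≤ (univ.filter (fun v => f v ≠ f (Function.update v i (!v i)))).card := by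
    have key : ∀ w : Fin r ⊕ ι → Bool, cj r f w ≠
        cj r f (Function.update w (Sum.inr i) (!w (Sum.inr i))) →
        (∀ i, w (Sum.inl i) = true) ∧
        f (fun j => w (Sum.inr j)) ≠ f (Function.update (fun j => w (Sum.inr j)) i
          (!w (Sum.inr i))) := by
      intro w hw
      have e : (fun j => Function.update w (Sum.inr i) (!w (Sum.inr i)) (Sum.inr j))
          = Function.update (fun j => w (Sum.inr j)) i (!w (Sum.inr i)) := by
        funext j
        by_cases h : j = i
        · subst h; simp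
        · simp [h]
      by_cases h1 : ∀ i, w (Sum.inl i) = true
      · refine ⟨h1, fun h2 => hw ?_⟩
        unfold cj
        rw [e, ← h2]
        simp
      · exfalso
        apply hw
        unfold cj
        simp [h1]
    refine card_le_card_of_injOn (fun w j => w (Sum.inr j)) ?_ ?_
    · intro w hw
      simp only [coe_filter, mem_univ, true_and, Set.mem_ofPred_eq] at hw ⊢
      exact (key w hw).2
    · intro w hw w' hw' h
      simp only [coe_filter, mem_univ, true_and, Set.mem_ofPred_eq] at hw hw'
      rw [← ext1_of r w (key w hw).1, ← ext1_of r w' (key w' hw').1]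
      exact congrArg (ext1 r) h
  unfold pr
  rw [Fintype.card_sum, Fintype.card_fin, pow_add, div_div, mul_comm ((2 : ℝ) ^ Fintype.card ι)]
  exact div_le_div_of_nonneg_right (by exact_mod_cast h) (by positivity)

theorem infl_inl (i : Fin r) : pr (fun w => cj r f w ≠
      cj r f (Function.update w (Sum.inl i) (!w (Sum.inl i))))
    ≤ 2 * (pr (fun v => f v = true) / 2 ^ r) := by
  rw [← pr_cj]
  set fl : (Fin r ⊕ ι → Bool) → (Fin r ⊕ ι → Bool) :=
    fun w => Function.update w (Sum.inl i) (!w (Sum.inl i)) with hfl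
  have hinj : Function.Injective fl := by
    intro u v h
    funext s
    have := congrFun h s
    by_cases hs : s = Sum.inl i
    · subst hs
      simpa [hfl] using this
    · simpa [hfl, hs] using this
  have h0 : (univ.filter (fun w => cj r f (fl w) = true)).card
      ≤ (univ.filter (fun w => cj r f w = true)).card := by
    refine card_le_card_of_injOn fl (fun w hw => by simpa using hw) (hinj.injOn)
  have h : (univ.filter (fun w => cj r f w ≠ cj r f (fl w))).card
      ≤ 2 * (univ.filter (fun w => cj r f w = true)).card := by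
    rw [two_mul]
    refine le_trans (card_le_card fun w hw => ?_)
      ((card_union_le _ _).trans (add_le_add le_rfl h0))
    simp only [mem_union, mem_filter, mem_univ, true_and] at hw ⊢
    revert hw
    cases cj r f w <;> cases cj r f (fl w) <;> simp
  unfold pr
  rw [← mul_div_assoc]
  exact div_le_div_of_nonneg_right (by exact_mod_cast h) (by positivity)

theorem infl_cj : infl (cj r f) ≤ 2 * (pr (fun v => f v = true) / 2 ^ r) * r + infl f / 2 ^ r := by
  unfold infl
  rw [Fintype.sum_sum_type, sum_div]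
  refine add_le_add ?_ (sum_le_sum fun i _ => infl_inr r f i)
  have := sum_le_card_nsmul univ _ _ (fun i (_ : i ∈ univ) => infl_inl r f i)
  simp only [card_univ, Fintype.card_fin, nsmul_eq_mul] at this
  linarith

theorem junta_cj (g : (Fin r ⊕ ι → Bool) → Bool) (J : Finset (Fin r ⊕ ι))
    (hg : ∀ x y, (∀ j ∈ J, x j = y j) → g x = g y) :
    ∃ (g' : (ι → Bool) → Bool) (J' : Finset ι), (∀ x y, (∀ j ∈ J', x j = y j) → g' x = g' y) ∧
      J'.card ≤ J.card ∧
      pr (fun v => f v ≠ g' v) ≤ pr (fun w => cj r f w ≠ g w) * 2 ^ r := by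
  refine ⟨fun v => g (ext1 r v), univ.filter (fun i => Sum.inr i ∈ J), ?_, ?_, ?_⟩
  · intro x y h
    refine hg _ _ fun j hj => ?_
    cases j with
    | inl i => rfl
    | inr i => exact h i (by simpa using hj)
  · refine card_le_card_of_injOn (fun i => Sum.inr i) (fun i hi => by simpa using hi) ?_
    intro a _ b _ h
    simpa using h
  · have h : (univ.filter (fun v => f v ≠ g (ext1 r v))).card
        ≤ (univ.filter (fun w => cj r f w ≠ g w)).card := by
      refine card_le_card_of_injOn (ext1 r) (fun v hv => ?_) (ext1_inj r).injOn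
      simp only [coe_filter, mem_univ, true_and, Set.mem_ofPred_eq] at hv ⊢
      rw [cj_ext1]; exact hv
    have h' : ((univ.filter (fun v => f v ≠ g (ext1 r v))).card : ℝ)
        ≤ (univ.filter (fun w => cj r f w ≠ g w)).card := by exact_mod_cast h
    unfold pr
    rw [Fintype.card_sum, Fintype.card_fin, pow_add, div_mul_eq_mul_div, div_le_div_iff₀
      (by positivity) (by positivity)]
    calc _ ≤ ((univ.filter (fun w => cj r f w ≠ g w)).card : ℝ) * (2 ^ r * 2 ^ Fintype.card ι) :=
          mul_le_mul_of_nonneg_right h' (by positivity)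
      _ = _ := by ring

end conj

/-- **Explicit hard functions.** -/
theorem explicit (r b k : ℕ) (R : Finset (Fin b → Bool)) :
    ∃ (ι : Type) (_ : Fintype ι) (_ : DecidableEq ι) (_ : Nonempty ι) (f : (ι → Bool) → Bool),
      pr (fun x => f x = true) = 1 / 2 ^ (r + 1) ∧
      infl f ≤ 2 * (1 / 2 ^ (r + 1)) * ((r + 1 : ℕ) + (k * (R.card / 2 ^ b) + b) / 2) ∧
      ∀ (ε : ℝ) (g : (ι → Bool) → Bool) (J : Finset ι),
        (∀ x y, (∀ j ∈ J, x j = y j) → g x = g y) →
        pr (fun x => f x ≠ g x) ≤ ε * (1 / 2 ^ (r + 1)) →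
        (R.card / 2 ^ b - ε) * 2 ^ k ≤ (R.card / 2 ^ b) * J.card := by
  have hμ : pr (fun x => ff (qq (k := k) R) x = true) = 1 / 2 := mu _
  have hr : (0 : ℝ) < 2 ^ r := by positivity
  refine ⟨Fin r ⊕ ((Fin b ⊕ Fin k) ⊕ Option (Fin k → Bool)), inferInstance, inferInstance,
    ⟨Sum.inr (Sum.inr none)⟩, cj r (ff (qq R)), ?_, ?_, ?_⟩
  · rw [pr_cj, hμ, pow_succ]
    field_simp
  · have h1 := infl_cj r (ff (qq (k := k) R))
    have h2 := infl_qq (k := k) R
    rw [hμ] at h1
    have h3 : infl (ff (qq (k := k) R)) / 2 ^ r ≤ (1 + (k * (R.card / 2 ^ b) + b) / 2) / 2 ^ r :=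
      div_le_div_of_nonneg_right h2 hr.le
    refine le_trans h1 (le_trans (add_le_add le_rfl h3) (le_of_eq ?_))
    rw [pow_succ]
    push_cast
    field_simp
    ring
  · intro ε g J hg hε
    obtain ⟨g', J', hg', hJ', hp⟩ := junta_cj r (ff (qq (k := k) R)) g J hg
    have h1 : pr (fun v => ff (qq (k := k) R) v ≠ g' v) ≤ ε * (1 / 2) := by
      refine le_trans hp ?_
      calc _ ≤ ε * (1 / 2 ^ (r + 1)) * 2 ^ r := mul_le_mul_of_nonneg_right hε hr.le
        _ = ε * (1 / 2) := by rw [pow_succ]; field_simp
    have h2 := err_qq R g' J' hg' ε h1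
    refine le_trans h2 (mul_le_mul_of_nonneg_left (by exact_mod_cast hJ') (by positivity))

end Pool.Agent.KS6_79.JN
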